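import Pool.Agent.H.MP_0a7d83_co.B

namespace Pool.Agent.Results.MP_0a7d83_co.Number
open Finset Sum Pool.Agent.H.MP_0a7d83_co

variable {n m : ℕ}

theorem orb (hnm : 1 ≤ n + m) (k : ℕ) (hk : k ≤ n + m + 1) :
    nf^[k + 5] (Dl (UU (n := n) (m := m)) LL 0) = Dl UU LL (n + m + 1 - k) := by
  induction k with
  | zero => simp only [Function.iterate_succ', Function.iterate_zero, Function.comp, id, d1, d2, d3,
      d4, d5 hnm, Nat.sub_zero]
  | succ k ih =>
    rw [show k + 1 + 5 = (k + 5) + 1 from rfl, Function.iterate_succ_apply', ih (by omega),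
      show n + m + 1 - k = (n + m + 1 - (k + 1)) + 1 by omega]
    exact step ok (by omega)

theorem no3 {D : Set (Finset (Fin (n + 2) ⊕ Fin (m + 2)))} (h : Iso D (Dl UU LL 0)) {F}
    (hF : F ∈ D) : F.card ≤ 2 := by
  obtain ⟨p, hp⟩ := h
  have := (hp F).1 hF
  simp only [Dl, Set.mem_setOf_eq, card_map] at this
  omega

theorem exL (hnm : 1 ≤ n + m) :
    ∃ F : Finset (Fin (n + 2) ⊕ Fin (m + 2)), F.card = 3 ∧ LL F := by
  rcases n with _ | n
  · obtain ⟨m, rfl⟩ : ∃ k, m = k + 1 := ⟨m - 1, by omega⟩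
    refine ⟨{inr 0, inr 1, inr ⟨2, by omega⟩}, card_eq_three.2 ⟨_, _, _, ?_, ?_, ?_, rfl⟩, Or.inr (Or.inl ?_)⟩ <;>
      simp [Fin.ext_iff]
  · refine ⟨{inl 0, inl 1, inl ⟨2, by omega⟩}, card_eq_three.2 ⟨_, _, _, ?_, ?_, ?_, rfl⟩, Or.inl ?_⟩ <;>
      simp [Fin.ext_iff]

theorem exU (hnm : 1 ≤ n + m) :
    ∃ F : Finset (Fin (n + 2) ⊕ Fin (m + 2)), F.card = 3 ∧ ¬ UU F := by
  obtain ⟨F, hs, hc⟩ := exists_subset_card_eq
    (s := ((univ : Finset (Fin (n + 2) ⊕ Fin (m + 2))).erase (inl 0)).erase (inr 0)) (n := 3)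
    (by rw [card_erase_of_mem (by simp), card_erase_of_mem (by simp)]; simp; omega)
  exact ⟨F, hc, fun h => nU.2 ⟨0, 0, by simp, by simp, by simp⟩ (ok.up _ _ hs h)⟩

theorem main (hnm : 1 ≤ n + m) :
    IsLeast {q | 0 < q ∧ Iso (nf^[q] (Dl (UU (n := n) (m := m)) LL 0)) (Dl UU LL 0)}
      (n + m + 6) := by
  obtain ⟨FL, hL, hL'⟩ := exL hnm
  obtain ⟨FU, hU, hU'⟩ := exU hnm
  have hC : ({inl 0, inr 0, inl 1} : Finset (Fin (n + 2) ⊕ Fin (m + 2))).card = 3 :=
    card_eq_three.2 ⟨_, _, _, by simp, by simp, by simp, rfl⟩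
  refine ⟨⟨by omega, ?_⟩, ?_⟩
  · rw [show n + m + 6 = n + m + 1 + 5 from rfl, orb hnm _ le_rfl, Nat.sub_self]
    exact ⟨Equiv.refl _, fun F => by simp⟩
  rintro q ⟨hq, h⟩
  by_contra hlt
  rcases q with _ | _ | _ | _ | _ | k
  · omega
  · simp only [Function.iterate_succ', Function.iterate_zero, Function.comp, id, d1] at h
    obtain ⟨p, hp⟩ := h
    obtain ⟨a, b, c, hab, hac, hbc, rfl⟩ := card_eq_three.1 hL
    have key : ∀ u v, u ≠ v → ({u, v} : Finset _) ⊆ {a, b, c} → ¬ LL {p.symm u, p.symm v} := by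
      intro u v huv hs hl
      have h1 : ({p.symm u, p.symm v} : Finset _) ∈ D1 n m := (hp _).2 (by
        simp only [map_insert, map_singleton, Equiv.coe_toEmbedding, Equiv.apply_symm_apply]
        exact Or.inr (Or.inr ⟨card_pair huv, ok.dn _ _ hs hL'⟩))
      exact h1 _ ⟨card_pair (by simpa using huv), hl⟩ subset_rfl
    rcases tri (p.symm a) (p.symm b) (p.symm c) with h1 | h1 | h1
    · exact key _ _ hab (by simp [insert_subset_iff]) h1
    · exact key _ _ hac (by simp [insert_subset_iff]) h1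
    · exact key _ _ hbc (by simp [insert_subset_iff]) h1
  · simp only [Function.iterate_succ', Function.iterate_zero, Function.comp, id, d1, d2] at h
    have := no3 h (F := FL) hL'; omega
  · simp only [Function.iterate_succ', Function.iterate_zero, Function.comp, id, d1, d2, d3] at h
    have := no3 h (F := FU) hU'; omega
  · simp only [Function.iterate_succ', Function.iterate_zero, Function.comp, id, d1, d2, d3,
      d4] at h
    have := no3 h (F := {inl 0, inr 0, inl 1}) (by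
      by_cases c : n + m = 1
      · exact Or.inr ⟨by omega, Or.inr (Or.inr (by simp))⟩
      · exact Or.inl (by omega))
    omega
  · rw [show k + 1 + 1 + 1 + 1 + 1 = k + 5 from rfl, orb hnm k (by omega)] at h
    by_cases c1 : n + m + 1 - k = 1
    · have := no3 h (F := FL) (Or.inr (Or.inr ⟨by omega, hL'⟩)); omega
    by_cases c2 : n + m + 1 - k = 2
    · have := no3 h (F := FU) (Or.inr (Or.inl ⟨by omega, hU'⟩)); omega
    · have := no3 h (F := FU) (Or.inl (by omega)); omega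

theorem result (n m : ℕ) (hn : 2 ≤ n) (hm : 2 ≤ m) (h : (n, m) ≠ (2, 2)) :
    IsLeast {q : ℕ | 0 < q ∧ Iso (nf^[q] (cx (bell n m))) (cx (bell n m))} (n + m + 2) := by
  obtain ⟨n, rfl⟩ := Nat.exists_eq_add_of_le' hn
  obtain ⟨m, rfl⟩ := Nat.exists_eq_add_of_le' hm
  have hnm : 1 ≤ n + m := by
    by_contra hc
    exact h (by rw [show n = 0 by omega, show m = 0 by omega])
  rw [d0, show n + 2 + (m + 2) + 2 = n + m + 6 by omega]
  exact main hnm

end Pool.Agent.Results.MP_0a7d83_co.Number
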